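import Mathlib

open Polynomial

namespace Pool.Agent.Results.MP_cd51d2_nt.ThreePspAP

/-- `n` is a pseudoprime to base `a`: `n` is composite and `a ^ (n - 1) ≡ 1 (mod n)`. -/
def IsPsp (a n : ℕ) : Prop := 1 < n ∧ ¬ n.Prime ∧ a ^ (n - 1) ≡ 1 [MOD n]

theorem isPsp_of {a n N : ℕ} (hn : 1 < n) (hnp : ¬ n.Prime)
    (h1 : (n : ℤ) ∣ (a : ℤ) ^ N - 1) (h2 : (N : ℤ) ∣ (n : ℤ) - 1) : IsPsp a n := by
  refine ⟨hn, hnp, ?_⟩
  have h3 : a ^ N ≡ 1 [MOD n] := by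
    apply Nat.ModEq.symm
    rw [Nat.modEq_iff_dvd]
    exact_mod_cast h1
  have h4 : N ∣ n - 1 := by
    have : ((n - 1 : ℕ) : ℤ) = (n : ℤ) - 1 := by
      rw [Nat.cast_sub hn.le]; simp
    rw [← this] at h2
    exact_mod_cast h2
  obtain ⟨c, hc⟩ := h4
  rw [hc, pow_mul]
  simpa using h3.pow c

theorem primePow_dvd {p e K L a : ℕ} (hp : p.Prime) (ha : 0 < a) (he : e ≤ K)
    (hL : Nat.totient (p ^ e) ∣ L) : p ^ e ∣ a ^ K * (a ^ L - 1) := by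
  by_cases hpa : p ∣ a
  · exact dvd_mul_of_dvd_left (dvd_trans (pow_dvd_pow p he) (pow_dvd_pow_of_dvd hpa K)) _
  · apply dvd_mul_of_dvd_right
    have hcop : Nat.Coprime a (p ^ e) :=
      Nat.Coprime.pow_right e ((Nat.Prime.coprime_iff_not_dvd hp).2 hpa).symm
    obtain ⟨c, hc⟩ := hL
    have h1 : a ^ L ≡ 1 [MOD p ^ e] := by
      rw [hc, pow_mul]
      simpa using (Nat.ModEq.pow_totient hcop).pow c
    exact (Nat.modEq_iff_dvd' (Nat.one_le_pow _ _ ha)).1 h1.symm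

theorem four_dvd {e₂ e₃ e₅ e₇ X : ℕ} (h2 : 2 ^ e₂ ∣ X) (h3 : 3 ^ e₃ ∣ X) (h5 : 5 ^ e₅ ∣ X)
    (h7 : 7 ^ e₇ ∣ X) : 2 ^ e₂ * 3 ^ e₃ * 5 ^ e₅ * 7 ^ e₇ ∣ X := by
  have c23 : Nat.Coprime (2 ^ e₂) (3 ^ e₃) := Nat.Coprime.pow _ _ (by norm_num)
  have c235 : Nat.Coprime (2 ^ e₂ * 3 ^ e₃) (5 ^ e₅) :=
    Nat.Coprime.mul_left (Nat.Coprime.pow _ _ (by norm_num)) (Nat.Coprime.pow _ _ (by norm_num))
  have c2357 : Nat.Coprime (2 ^ e₂ * 3 ^ e₃ * 5 ^ e₅) (7 ^ e₇) :=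
    Nat.Coprime.mul_left (Nat.Coprime.mul_left (Nat.Coprime.pow _ _ (by norm_num))
      (Nat.Coprime.pow _ _ (by norm_num))) (Nat.Coprime.pow _ _ (by norm_num))
  exact c2357.mul_dvd_of_dvd_of_dvd (c235.mul_dvd_of_dvd_of_dvd
    (c23.mul_dvd_of_dvd_of_dvd h2 h3) h5) h7

theorem tot2 (e : ℕ) : Nat.totient (2 ^ (e + 1)) = 2 ^ e := by
  rw [Nat.totient_prime_pow_succ Nat.prime_two]; simp

theorem tot3 (e : ℕ) : Nat.totient (3 ^ (e + 1)) = 3 ^ e * 2 := by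
  rw [Nat.totient_prime_pow_succ Nat.prime_three]

theorem tot5 (e : ℕ) : Nat.totient (5 ^ (e + 1)) = 5 ^ e * 4 := by
  rw [Nat.totient_prime_pow_succ Nat.prime_five]

theorem tot7 (e : ℕ) : Nat.totient (7 ^ (e + 1)) = 7 ^ e * 6 := by
  rw [Nat.totient_prime_pow_succ (by norm_num)]

theorem K_eq (j : ℕ) : 210 ^ (j + 1) = 2 ^ (j + 1) * 3 ^ (j + 1) * 5 ^ (j + 1) * 7 ^ (j + 1) := by
  rw [← mul_pow, ← mul_pow, ← mul_pow]; norm_num

theorem le_K (j : ℕ) : j + 1 + 3 ≤ 210 ^ (j + 1) := by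
  induction j with
  | zero => norm_num
  | succ j ih => rw [pow_succ]; omega

theorem dvd30 (j a : ℕ) (ha : 0 < a) :
    30 * 210 ^ (j + 1) ∣ a ^ (210 ^ (j + 1)) * (a ^ (2 * 210 ^ (j + 1)) - 1) := by
  have hle := le_K j
  have h2 : 2 ^ (j + 1 + 1) ∣ a ^ (210 ^ (j + 1)) * (a ^ (2 * 210 ^ (j + 1)) - 1) := by
    apply primePow_dvd Nat.prime_two ha (by omega)
    rw [tot2, K_eq]
    exact ⟨2 * (3 ^ (j + 1) * 5 ^ (j + 1) * 7 ^ (j + 1)), by ring⟩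
  have h3 : 3 ^ (j + 1 + 1) ∣ a ^ (210 ^ (j + 1)) * (a ^ (2 * 210 ^ (j + 1)) - 1) := by
    apply primePow_dvd Nat.prime_three ha (by omega)
    rw [tot3, K_eq]
    exact ⟨2 ^ (j + 1) * (5 ^ (j + 1) * 7 ^ (j + 1)), by ring⟩
  have h5 : 5 ^ (j + 1 + 1) ∣ a ^ (210 ^ (j + 1)) * (a ^ (2 * 210 ^ (j + 1)) - 1) := by
    apply primePow_dvd Nat.prime_five ha (by omega)
    rw [tot5, K_eq]
    exact ⟨2 ^ j * (3 ^ (j + 1) * 7 ^ (j + 1)), by ring⟩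
  have h7 : 7 ^ (j + 1) ∣ a ^ (210 ^ (j + 1)) * (a ^ (2 * 210 ^ (j + 1)) - 1) := by
    apply primePow_dvd (by norm_num) ha (by omega)
    rw [tot7, K_eq]
    exact ⟨14 * (2 ^ j * 3 ^ j * 5 ^ (j + 1)), by ring⟩
  have := four_dvd h2 h3 h5 h7
  have e : 30 * 210 ^ (j + 1) =
      2 ^ (j + 1 + 1) * 3 ^ (j + 1 + 1) * 5 ^ (j + 1 + 1) * 7 ^ (j + 1) := by
    rw [K_eq]; ring
  rw [e]
  exact this

theorem dvd24 (j a : ℕ) (ha : 0 < a) :
    24 * 210 ^ (j + 1) ∣ a ^ (210 ^ (j + 1)) * (a ^ (4 * 210 ^ (j + 1)) - 1) := by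
  have hle := le_K j
  have h2 : 2 ^ (j + 1 + 3) ∣ a ^ (210 ^ (j + 1)) * (a ^ (4 * 210 ^ (j + 1)) - 1) := by
    apply primePow_dvd Nat.prime_two ha (by omega)
    rw [show j + 1 + 3 = (j + 3) + 1 by ring, tot2, K_eq]
    exact ⟨(3 ^ (j + 1) * 5 ^ (j + 1) * 7 ^ (j + 1)), by ring⟩
  have h3 : 3 ^ (j + 1 + 1) ∣ a ^ (210 ^ (j + 1)) * (a ^ (4 * 210 ^ (j + 1)) - 1) := by
    apply primePow_dvd Nat.prime_three ha (by omega)
    rw [tot3, K_eq]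
    exact ⟨2 * 2 ^ (j + 1) * (5 ^ (j + 1) * 7 ^ (j + 1)), by ring⟩
  have h5 : 5 ^ (j + 1) ∣ a ^ (210 ^ (j + 1)) * (a ^ (4 * 210 ^ (j + 1)) - 1) := by
    apply primePow_dvd Nat.prime_five ha (by omega)
    rw [tot5, K_eq]
    exact ⟨5 * 2 ^ (j + 1) * (3 ^ (j + 1) * 7 ^ (j + 1)), by ring⟩
  have h7 : 7 ^ (j + 1) ∣ a ^ (210 ^ (j + 1)) * (a ^ (4 * 210 ^ (j + 1)) - 1) := by
    apply primePow_dvd (by norm_num) ha (by omega)
    rw [tot7, K_eq]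
    exact ⟨28 * (2 ^ j * 3 ^ j * 5 ^ (j + 1)), by ring⟩
  have := four_dvd h2 h3 h5 h7
  have e : 24 * 210 ^ (j + 1) =
      2 ^ (j + 1 + 3) * 3 ^ (j + 1 + 1) * 5 ^ (j + 1) * 7 ^ (j + 1) := by
    rw [K_eq]; ring
  rw [e]
  exact this

/-- composite from an integer factorisation -/
theorem not_prime_of_int {n : ℕ} {x y : ℤ} (hx : 1 < x) (hy : 1 < y) (h : (n : ℤ) = x * y) :
    ¬ n.Prime := by
  obtain ⟨A, hA⟩ := Int.eq_ofNat_of_zero_le (by linarith : (0 : ℤ) ≤ x)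
  obtain ⟨B, hB⟩ := Int.eq_ofNat_of_zero_le (by linarith : (0 : ℤ) ≤ y)
  have hA1 : 1 < A := by rw [hA] at hx; exact_mod_cast hx
  have hB1 : 1 < B := by rw [hB] at hy; exact_mod_cast hy
  have : n = A * B := by rw [hA, hB] at h; exact_mod_cast h
  rw [this]
  exact Nat.not_prime_mul hA1.ne' hB1.ne'

theorem phi15_gt {x : ℤ} (hx : 2 ≤ x) : x < x ^ 8 - x ^ 7 + x ^ 5 - x ^ 4 + x ^ 3 - x + 1 := by
  have h0 : 0 < x - 1 := by linarith
  have h2 : 0 < x ^ 4 * (x - 1) := by positivity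
  have h3 : 0 < x * (x - 1) * (x + 1) := by positivity
  have h4 : x ≤ x ^ 7 * (x - 1) := by
    have h5 : x ^ 1 ≤ x ^ 7 := pow_le_pow_right₀ (by linarith) (by norm_num)
    have h6 : x ^ 7 * 1 ≤ x ^ 7 * (x - 1) := by
      apply mul_le_mul_of_nonneg_left (by linarith) (by positivity)
    linarith
  nlinarith

theorem phi30_gt {x : ℤ} (hx : 2 ≤ x) : 1 < x ^ 8 + x ^ 7 - x ^ 5 - x ^ 4 - x ^ 3 + x + 1 := by
  have h3 : 0 < x ^ 7 - x ^ 3 := by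
    have : x ^ 7 - x ^ 3 = x ^ 3 * (x - 1) * (x + 1) * (x ^ 2 + 1) := by ring
    rw [this]
    have : 0 < x - 1 := by linarith
    positivity
  have h4 : 0 < x ^ 8 - x ^ 5 - x ^ 4 := by
    have h5 : (8 : ℤ) ≤ x ^ 3 := by
      calc (8 : ℤ) = 2 ^ 3 := by norm_num
        _ ≤ x ^ 3 := pow_le_pow_left₀ (by norm_num) hx 3
    have : x ^ 8 - x ^ 5 - x ^ 4 = x ^ 4 * (x * (x ^ 3 - 1) - 1) := by ring
    rw [this]
    have : 0 < x * (x ^ 3 - 1) - 1 := by nlinarith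
    positivity
  linarith

theorem eval_cyc30 (x : ℤ) :
    (cyclotomic 30 ℤ).eval x = x ^ 8 + x ^ 7 - x ^ 5 - x ^ 4 - x ^ 3 + x + 1 := by
  have h15 : cyclotomic 15 ℤ = X ^ 8 - X ^ 7 + X ^ 5 - X ^ 4 + X ^ 3 - X + 1 := by
    apply mul_right_cancel₀ (cyclotomic_ne_zero 3 ℤ)
    rw [show 15 = 3 * 5 by rfl,
      ← cyclotomic_expand_eq_cyclotomic_mul Nat.prime_five (by norm_num1)]
    simp only [cyclotomic_three, map_add, map_pow, expand_X, map_one]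
    ring
  have h : cyclotomic 30 ℤ = X ^ 8 + X ^ 7 - X ^ 5 - X ^ 4 - X ^ 3 + X + 1 := by
    apply mul_right_cancel₀ (cyclotomic_ne_zero 15 ℤ)
    rw [show 30 = 15 * 2 by rfl,
      ← cyclotomic_expand_eq_cyclotomic_mul Nat.prime_two (by norm_num1)]
    simp only [h15, map_add, map_sub, map_pow, expand_X, map_one]
    ring
  rw [h]
  simp

theorem phi30_pow7 (x : ℤ) :
    (x ^ 7) ^ 8 + (x ^ 7) ^ 7 - (x ^ 7) ^ 5 - (x ^ 7) ^ 4 - (x ^ 7) ^ 3 + x ^ 7 + 1 =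
      (x ^ 8 + x ^ 7 - x ^ 5 - x ^ 4 - x ^ 3 + x + 1) * (cyclotomic 210 ℤ).eval x := by
  rw [← eval_cyc30 x, mul_comm, ← eval_mul, show 210 = 30 * 7 by rfl,
    ← cyclotomic_expand_eq_cyclotomic_mul (by norm_num) (by norm_num1), expand_eval, eval_cyc30]

/-- The three terms are pseudoprimes to base `a`. -/
theorem terms {a : ℕ} (ha : 2 ≤ a) (j : ℕ) {A B C : ℕ} {w : ℤ}
    (hw : w = (a : ℤ) ^ (210 ^ (j + 1)))
    (hA : (A : ℤ) = w ^ 8 - w ^ 7 + w ^ 5 - w ^ 4 + w ^ 3 - w + 1)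
    (hB : (B : ℤ) = w ^ 8 - w ^ 4 + 1)
    (hC : (C : ℤ) = w ^ 8 + w ^ 7 - w ^ 5 - w ^ 4 - w ^ 3 + w + 1) :
    IsPsp a A ∧ IsPsp a B ∧ IsPsp a C := by
  have ha' : (2 : ℤ) ≤ (a : ℤ) := by exact_mod_cast ha
  have hge : ∀ k : ℕ, 0 < k → (2 : ℤ) ≤ (a : ℤ) ^ k := by
    intro k hk
    calc (2 : ℤ) ≤ (a : ℤ) ^ 1 := by simpa using ha'
      _ ≤ (a : ℤ) ^ k := pow_le_pow_right₀ (by linarith) hk
  have hw2 : 2 ≤ w := by rw [hw]; exact hge _ (by positivity)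
  have h30 : ((30 * 210 ^ (j + 1) : ℕ) : ℤ) ∣ w * (w ^ 2 - 1) := by
    have h := Int.natCast_dvd_natCast.2 (dvd30 j a (by omega))
    have e : ((a ^ (210 ^ (j + 1)) * (a ^ (2 * 210 ^ (j + 1)) - 1) : ℕ) : ℤ)
        = w * (w ^ 2 - 1) := by
      rw [Nat.cast_mul, Nat.cast_sub (Nat.one_le_pow _ _ (by omega)), hw]
      push_cast
      ring
    rw [e] at h
    exact h
  have h15 : ((15 * 210 ^ (j + 1) : ℕ) : ℤ) ∣ w * (w ^ 2 - 1) :=
    dvd_trans (Int.natCast_dvd_natCast.2 ⟨2, by ring⟩) h30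
  have h24 : ((24 * 210 ^ (j + 1) : ℕ) : ℤ) ∣ w * (w ^ 4 - 1) := by
    have h := Int.natCast_dvd_natCast.2 (dvd24 j a (by omega))
    have e : ((a ^ (210 ^ (j + 1)) * (a ^ (4 * 210 ^ (j + 1)) - 1) : ℕ) : ℤ)
        = w * (w ^ 4 - 1) := by
      rw [Nat.cast_mul, Nat.cast_sub (Nat.one_le_pow _ _ (by omega)), hw]
      push_cast
      ring
    rw [e] at h
    exact h
  refine ⟨?_, ?_, ?_⟩
  · -- first term
    obtain ⟨y, hy⟩ : ∃ y : ℤ, y = (a : ℤ) ^ (105 * 210 ^ j) := ⟨_, rfl⟩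
    have hy2 : 2 ≤ y := by rw [hy]; exact hge _ (by positivity)
    have hwy : w = y ^ 2 := by
      rw [hw, hy, ← pow_mul]; congr 1; ring
    have hA1 : 1 < A := by
      have := phi15_gt hw2
      have : (1 : ℤ) < A := by linarith
      exact_mod_cast this
    apply isPsp_of (N := 15 * 210 ^ (j + 1)) hA1
    · apply not_prime_of_int (x := y ^ 8 - y ^ 7 + y ^ 5 - y ^ 4 + y ^ 3 - y + 1)
        (y := y ^ 8 + y ^ 7 - y ^ 5 - y ^ 4 - y ^ 3 + y + 1)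
      · have := phi15_gt hy2; linarith
      · exact phi30_gt hy2
      · rw [hA, hwy]; ring
    · refine ⟨(w ^ 5 - 1) * (w ^ 2 + w + 1), ?_⟩
      rw [mul_comm 15, pow_mul, ← hw, hA]; ring
    · rw [hA]
      refine dvd_trans h15 ⟨w ^ 5 - w ^ 4 + w ^ 3 + 1, by ring⟩
  · -- second term
    obtain ⟨y, hy⟩ : ∃ y : ℤ, y = (a : ℤ) ^ (42 * 210 ^ j) := ⟨_, rfl⟩
    have hy2 : 2 ≤ y := by rw [hy]; exact hge _ (by positivity)
    have hwy : w = y ^ 5 := by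
      rw [hw, hy, ← pow_mul]; congr 1; ring
    have hpos : ∀ z : ℤ, 2 ≤ z → z < z ^ 8 - z ^ 4 + 1 := by
      intro z hz
      have h1 : z ^ 1 ≤ z ^ 4 := pow_le_pow_right₀ (by linarith) (by norm_num)
      have h3 : z ^ 8 - z ^ 4 = z ^ 4 * (z ^ 4 - 1) := by ring
      have h4 : (2 : ℤ) ≤ z ^ 4 := by linarith
      have h5 : z ^ 4 * 1 ≤ z ^ 4 * (z ^ 4 - 1) := by
        apply mul_le_mul_of_nonneg_left (by linarith) (by positivity)
      linarith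
    have hB1 : 1 < B := by
      have := hpos w hw2
      have : (1 : ℤ) < B := by linarith
      exact_mod_cast this
    apply isPsp_of (N := 24 * 210 ^ (j + 1)) hB1
    · apply not_prime_of_int (x := y ^ 8 - y ^ 4 + 1)
        (y := y ^ 32 + y ^ 28 - y ^ 20 - y ^ 16 - y ^ 12 + y ^ 4 + 1)
      · have := hpos y hy2; linarith
      · have h4 : 2 ≤ y ^ 4 := by
          calc (2 : ℤ) ≤ y ^ 1 := by linarith
            _ ≤ y ^ 4 := pow_le_pow_right₀ (by linarith) (by norm_num)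
        have := phi30_gt h4
        nlinarith
      · rw [hB, hwy]; ring
    · refine ⟨(w ^ 12 - 1) * (w ^ 4 + 1), ?_⟩
      rw [mul_comm 24, pow_mul, ← hw, hB]; ring
    · rw [hB]
      refine dvd_trans h24 ⟨w ^ 3, by ring⟩
  · -- third term
    obtain ⟨y, hy⟩ : ∃ y : ℤ, y = (a : ℤ) ^ (30 * 210 ^ j) := ⟨_, rfl⟩
    have hy2 : 2 ≤ y := by rw [hy]; exact hge _ (by positivity)
    have hwy : w = y ^ 7 := by
      rw [hw, hy, ← pow_mul]; congr 1; ring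
    have hC1 : 1 < C := by
      have := phi30_gt hw2
      have : (1 : ℤ) < C := by linarith
      exact_mod_cast this
    apply isPsp_of (N := 30 * 210 ^ (j + 1)) hC1
    · have h7 : (C : ℤ) = (y ^ 8 + y ^ 7 - y ^ 5 - y ^ 4 - y ^ 3 + y + 1) *
          (cyclotomic 210 ℤ).eval y := by
        rw [← phi30_pow7 y, hC, hwy]
      have hlt : y ^ 8 + y ^ 7 - y ^ 5 - y ^ 4 - y ^ 3 + y + 1 < (C : ℤ) := by
        have h9 : y ^ 8 + y ^ 7 - y ^ 5 - y ^ 4 - y ^ 3 + y + 1 < y ^ 10 := by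
          have e1 : y ^ 10 - y ^ 8 - y ^ 7 = y ^ 7 * (y * (y ^ 2 - 1) - 1) := by ring
          have e2 : 0 < y * (y ^ 2 - 1) - 1 := by nlinarith
          have e3 : 0 < y ^ 7 * (y * (y ^ 2 - 1) - 1) := by positivity
          have e4 : y ^ 1 ≤ y ^ 5 := pow_le_pow_right₀ (by linarith) (by norm_num)
          have e5 : 1 ≤ y ^ 4 := one_le_pow₀ (by linarith)
          have e6 : 0 < y ^ 3 := by positivity
          linarith
        have h10 : y ^ 10 ≤ w ^ 2 := by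
          rw [hwy, ← pow_mul]
          exact pow_le_pow_right₀ (by linarith) (by norm_num)
        have h11 : w ^ 2 < (C : ℤ) := by
          rw [hC]
          have e1 : w ^ 8 - w ^ 5 - w ^ 4 - w ^ 3 = w ^ 3 * (w * (w ^ 4 - w - 1) - 1) := by ring
          have e0 : 4 ≤ w ^ 2 := by nlinarith
          have e7 : w ^ 2 * w ^ 2 = w ^ 4 := by ring
          have e8 : 4 * w ^ 2 ≤ w ^ 4 := by nlinarith
          have e2 : 0 < w * (w ^ 4 - w - 1) - 1 := by nlinarith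
          have e3 : 0 < w ^ 3 * (w * (w ^ 4 - w - 1) - 1) := by positivity
          have e4 : w ^ 2 ≤ w ^ 7 := pow_le_pow_right₀ (by linarith) (by norm_num)
          linarith
        linarith
      have hg := phi30_gt hy2
      refine not_prime_of_int hg ?_ h7
      by_contra hcon
      have : (y ^ 8 + y ^ 7 - y ^ 5 - y ^ 4 - y ^ 3 + y + 1) * (cyclotomic 210 ℤ).eval y
          ≤ (y ^ 8 + y ^ 7 - y ^ 5 - y ^ 4 - y ^ 3 + y + 1) * 1 := by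
        apply mul_le_mul_of_nonneg_left (not_lt.1 hcon) (by linarith)
      linarith
    · refine ⟨(w ^ 15 - 1) * (w ^ 5 + 1) * (w ^ 2 - w + 1), ?_⟩
      rw [mul_comm 30, pow_mul, ← hw, hC]; ring
    · rw [hC]
      refine dvd_trans h30 ⟨w ^ 5 + w ^ 4 + w ^ 3 - 1, by ring⟩

/-- For every base `a ≥ 2` (in particular for every even base) there are infinitely many
three-term arithmetic progressions `n₁ < n₂ < n₃` of pseudoprimes to base `a`. -/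
theorem result : ∀ a : ℕ, 2 ≤ a →
    {t : ℕ × ℕ × ℕ | t.1 < t.2.1 ∧ t.2.1 < t.2.2 ∧ t.2.1 - t.1 = t.2.2 - t.2.1 ∧
      IsPsp a t.1 ∧ IsPsp a t.2.1 ∧ IsPsp a t.2.2}.Infinite := by
  intro a ha
  apply Set.Infinite.of_image Prod.fst
  apply Set.infinite_of_forall_exists_gt
  intro b
  obtain ⟨w, hw⟩ : ∃ w : ℤ, w = (a : ℤ) ^ (210 ^ (b + 1)) := ⟨_, rfl⟩
  have hbw : (b : ℤ) < w := by
    rw [hw]
    have h1 : b < 210 ^ (b + 1) := by
      have := le_K b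
      omega
    have h2 : 210 ^ (b + 1) < a ^ (210 ^ (b + 1)) := Nat.lt_pow_self (by omega)
    exact_mod_cast lt_trans h1 h2
  have hw2 : 2 ≤ w := by
    rw [hw]
    have h0 : 1 ≤ 210 ^ (b + 1) := Nat.one_le_pow _ _ (by norm_num)
    have h1 : a ^ 1 ≤ a ^ (210 ^ (b + 1)) := Nat.pow_le_pow_right (by omega) h0
    rw [pow_one] at h1
    exact_mod_cast le_trans ha h1
  have hA0 := phi15_gt hw2
  have hr0 : 0 < w * (w ^ 2 - 1) ^ 2 * (w ^ 2 + 1) := by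
    have : 0 < w ^ 2 - 1 := by nlinarith
    positivity
  obtain ⟨A, hA⟩ := Int.eq_ofNat_of_zero_le (by linarith : (0 : ℤ) ≤
    w ^ 8 - w ^ 7 + w ^ 5 - w ^ 4 + w ^ 3 - w + 1)
  obtain ⟨r, hr⟩ := Int.eq_ofNat_of_zero_le hr0.le
  have hA' : (A : ℤ) = w ^ 8 - w ^ 7 + w ^ 5 - w ^ 4 + w ^ 3 - w + 1 := hA.symm
  have hr' : (r : ℤ) = w * (w ^ 2 - 1) ^ 2 * (w ^ 2 + 1) := hr.symm
  have hrpos : 0 < r := by
    have : (0 : ℤ) < r := by rw [hr']; exact hr0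
    exact_mod_cast this
  obtain ⟨h1, h2, h3⟩ := terms (B := A + r) (C := A + r + r) ha b hw hA'
    (by push_cast; rw [hA', hr']; ring) (by push_cast; rw [hA', hr']; ring)
  refine ⟨A, ⟨(A, A + r, A + r + r), ⟨?_, ?_, ?_, h1, h2, h3⟩, rfl⟩, ?_⟩
  · show A < A + r
    omega
  · show A + r < A + r + r
    omega
  · show A + r - A = A + r + r - (A + r)
    omega
  · have : (b : ℤ) < A := by linarith
    exact_mod_cast this

end Pool.Agent.Results.MP_cd51d2_nt.ThreePspAP
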